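import Pool.Agent.V1131.CpetTwo

/-! # A CPET tree of maximum degree 4 with two vertices of degree 4

The tree has 61 vertices: two vertices `u`, `v` of degree 4 joined by a path with 12 inner
vertices; the other legs at `u` have 30, 1, 1 vertices, those at `v` have 12, 2, 1 vertices. -/

namespace Pool.Agent.Results.MP_d6ea2c_co.TwoDegreeFour

/-- `T` has a connected partition of type `l`: a set partition of the vertex set whose blocks
induce connected subgraphs and whose block sizes are the parts of `l`. -/
def HasType {V : Type} [Fintype V] [DecidableEq V] (T : SimpleGraph V)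
    (l : Nat.Partition (Fintype.card V)) : Prop :=
  ∃ P : Finpartition (Finset.univ : Finset V),
    (∀ B ∈ P.parts, (T.induce (B : Set V)).Connected) ∧ P.parts.val.map Finset.card = l.parts

/-- CPET trees: trees with a connected partition of every type. -/
def CPET {V : Type} [Fintype V] [DecidableEq V] (T : SimpleGraph V) : Prop :=
  T.IsTree ∧ ∀ l : Nat.Partition (Fintype.card V), HasType T l

/-- There is a CPET tree of maximum degree 4 with at least two (exactly two) vertices of
degree 4. -/
theorem result : ∃ (T : SimpleGraph (Fin 61)) (_ : DecidableRel T.Adj), CPET T ∧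
    T.maxDegree = 4 ∧ (Finset.univ.filter (fun v => T.degree v = 4)).card = 2 := by
  refine ⟨V1131.CpetTwo.tree, inferInstance, ⟨V1131.CpetTwo.tree_isTree, fun l => ?_⟩, ?_, ?_⟩
  · exact V1131.CpetTwo.cp_all l.parts (fun x hx => l.parts_pos hx) (by
      rw [l.parts_sum]; rfl)
  · apply le_antisymm
    · apply SimpleGraph.maxDegree_le_of_forall_degree_le
      decide +kernel
    · have h := V1131.CpetTwo.tree.degree_le_maxDegree 0
      have h2 : V1131.CpetTwo.tree.degree 0 = 4 := by decide +kernel
      rwa [h2] at h
  · decide +kernel

end Pool.Agent.Results.MP_d6ea2c_co.TwoDegreeFour
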